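import Mathlib

set_option autoImplicit false

namespace Pool.Agent.H598Z.K33

abbrev V := Fin 12

def edges : List (ℕ × ℕ) :=
  [(0,1),(0,7),(0,8),(0,9),(1,7),(1,8),(1,11),(2,3),(2,8),(2,10),(3,9),(3,10),(3,11),(4,5),
    (4,10),(5,6),(5,11),(6,7),(7,8),(9,10)]

def adj (u v : V) : Bool :=
  edges.any fun e => (e.1 == u.val && e.2 == v.val) || (e.1 == v.val && e.2 == u.val)

def G : SimpleGraph V where
  Adj u v := adj u v = true
  symm := ⟨by decide⟩
  loopless := ⟨by decide⟩

instance : DecidableRel G.Adj := fun u v => inferInstanceAs (Decidable (adj u v = true))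

/-- one step extensions of an induced path, stored with the last vertex first -/
def ext : List V → List (List V)
  | [] => []
  | h :: t => ((List.finRange 12).filter fun v =>
      adj v h && t.all fun u => !(adj v u) && u != v).map fun v => v :: h :: t

def lev (a : V) : ℕ → List (List V)
  | 0 => [[a]]
  | k + 1 => (lev a k).flatMap ext

def paths (a : V) : List (List V) := (List.range 12).flatMap (lev a)

def pl (P : ℕ → V) : ℕ → List V
  | 0 => [P 0]
  | k + 1 => P (k + 1) :: pl P k

lemma mem_pl (P : ℕ → V) (l : ℕ) (u : V) : u ∈ pl P l ↔ ∃ s, s ≤ l ∧ P s = u := by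
  induction l with
  | zero => simp [pl, eq_comm]
  | succ l ih =>
    simp only [pl, List.mem_cons, ih]
    constructor
    · rintro (rfl | ⟨s, hs, rfl⟩)
      · exact ⟨_, le_rfl, rfl⟩
      · exact ⟨s, by omega, rfl⟩
    · rintro ⟨s, hs, rfl⟩
      rcases Nat.eq_or_lt_of_le hs with rfl | h
      · exact Or.inl rfl
      · exact Or.inr ⟨s, by omega, rfl⟩

lemma pl_len (P : ℕ → V) (l : ℕ) : (pl P l).length = l + 1 := by
  induction l with
  | zero => rfl
  | succ l ih => simp [pl, ih]

lemma pl_head (P : ℕ → V) (l : ℕ) : (pl P l).headD 0 = P l := by cases l <;> rfl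

lemma pl_mem_lev (P : ℕ → V) (l : ℕ) (h1 : ∀ s t, s ≤ l → t ≤ l → P s = P t → s = t)
    (h2 : ∀ s t, s ≤ l → t ≤ l → (G.Adj (P s) (P t) ↔ (s + 1 = t ∨ t + 1 = s))) :
    pl P l ∈ lev (P 0) l := by
  induction l with
  | zero => simp [pl, lev]
  | succ l ih =>
    have h3 := ih (fun s t hs ht => h1 s t (by omega) (by omega))
      (fun s t hs ht => h2 s t (by omega) (by omega))
    simp only [lev, List.mem_flatMap]
    refine ⟨pl P l, h3, ?_⟩
    have h4 : adj (P (l + 1)) (P l) = true := (h2 (l + 1) l le_rfl (by omega)).mpr (Or.inr rfl)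
    cases l with
    | zero => simpa [pl, ext] using h4
    | succ l =>
      simp only [pl, ext, List.mem_map, List.mem_filter, List.mem_finRange, true_and]
      refine ⟨_, ?_, rfl⟩
      simp only [Bool.and_eq_true, List.all_eq_true, Bool.not_eq_true', bne_iff_ne]
      refine ⟨h4, fun u hu => ?_⟩
      obtain ⟨s, hs, rfl⟩ := (mem_pl P l u).mp hu
      refine ⟨?_, fun h => ?_⟩
      · have := (h2 (l + 1 + 1) s le_rfl (by omega)).not.mpr (by omega)
        simpa [G] using this
      · have := h1 _ _ (by omega) le_rfl h
        omega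

lemma pl_mem_paths (P : ℕ → V) (l : ℕ) (h1 : ∀ s t, s ≤ l → t ≤ l → P s = P t → s = t)
    (h2 : ∀ s t, s ≤ l → t ≤ l → (G.Adj (P s) (P t) ↔ (s + 1 = t ∨ t + 1 = s))) :
    pl P l ∈ paths (P 0) := by
  have hl : l < 12 := by
    have := Fintype.card_le_of_injective (fun s : Fin (l + 1) => P s) fun s t h =>
      Fin.ext (h1 s t (by omega) (by omega) h)
    simp at this
    omega
  exact List.mem_flatMap.mpr ⟨l, List.mem_range.mpr hl, pl_mem_lev P l h1 h2⟩

def okT (a b : V) (p q : List V) : Bool :=
  p.all fun u => q.all fun v => u == a || u == b || v == a || v == b || (u != v && !(adj u v))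

def endT (a b : V) : List (List V) :=
  (paths a).filter fun p => p.headD 0 == b && decide (3 ≤ p.length)

lemma noTheta : ∀ a b : V, ((endT a b).all fun p => (endT a b).all fun q => !(okT a b p q) ||
    (endT a b).all fun r => !(okT a b p r && okT a b q r)) = true := by
  decide +kernel

def okP (a b : V) (p q : List V) : Bool :=
  p.all fun u => q.all fun v => u != v &&
    (adj u v == ((u == a && v == b) || (u == p.headD 0 && v == q.headD 0)))

def longP (a : V) : List (List V) := (paths a).filter fun p => decide (2 ≤ p.length)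

lemma noPrism : ∀ a b c : V, adj a b = true → adj a c = true → adj b c = true →
    ((longP a).all fun p => (longP b).all fun q => !(okP a b p q) ||
      (longP c).all fun r => !(okP a c p r && okP b c q r)) = true := by
  decide +kernel

def okH (a z : V) (p : List V) : Bool :=
  p.all fun u => u != z && (adj z u == (u == a || u == p.headD 0))

lemma noEvenHole : ∀ a z : V, ((paths a).all fun p =>
    !(decide (3 ≤ p.length) && okH a z p) || decide (p.length % 2 = 0)) = true := by
  decide +kernel

lemma noWheel : ∀ a z : V, ((paths a).all fun p =>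
    !(decide (3 ≤ p.length) && okH a z p) || (List.finRange 12).all fun c =>
      (z :: p).contains c ||
        decide ((Finset.univ.filter fun v : V => v ∈ z :: p ∧ adj c v = true).card < 3 ∨
          (Finset.univ.filter fun v : V => v ∈ z :: p ∧ adj c v = true).card % 2 = 1)) = true := by
  decide +kernel

end Pool.Agent.H598Z.K33
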