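import Pool.Agent.H598Z.K33.Graph

set_option autoImplicit false

namespace Pool.Agent.H598Z.K33

theorem theta_free : ¬ ∃ (P : Fin 3 → ℕ → V) (l : Fin 3 → ℕ),
    (∀ i, 2 ≤ l i) ∧
    (∀ i j, P i 0 = P j 0 ∧ P i (l i) = P j (l j)) ∧
    (∀ i s t, s ≤ l i → t ≤ l i → P i s = P i t → s = t) ∧
    (∀ i s t, s ≤ l i → t ≤ l i →
      (G.Adj (P i s) (P i t) ↔ (s + 1 = t ∨ t + 1 = s))) ∧
    (∀ i j s t, i ≠ j → 0 < s → s < l i → 0 < t → t < l j →
      P i s ≠ P j t ∧ ¬ G.Adj (P i s) (P j t)) := by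
  rintro ⟨P, l, h1, h2, h3, h4, h5⟩
  have hm : ∀ i, pl (P i) (l i) ∈ endT (P 0 0) (P 0 (l 0)) := by
    intro i
    have := pl_mem_paths (P i) (l i) (h3 i) (h4 i)
    rw [(h2 i 0).1] at this
    refine List.mem_filter.mpr ⟨this, ?_⟩
    have := h1 i
    simp only [pl_head, pl_len, (h2 i 0).2, beq_self_eq_true, Bool.true_and, decide_eq_true_eq]
    omega
  have hk : ∀ i j, i ≠ j → okT (P 0 0) (P 0 (l 0)) (pl (P i) (l i)) (pl (P j) (l j)) = true := by
    intro i j hij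
    simp only [okT, List.all_eq_true]
    intro u hu v hv
    obtain ⟨s, hs, rfl⟩ := (mem_pl _ _ _).mp hu
    obtain ⟨t, ht, rfl⟩ := (mem_pl _ _ _).mp hv
    rcases Nat.eq_zero_or_pos s with rfl | hs0
    · simp [(h2 i 0).1]
    rcases Nat.eq_or_lt_of_le hs with rfl | hs1
    · simp [(h2 i 0).2]
    rcases Nat.eq_zero_or_pos t with rfl | ht0
    · simp [(h2 j 0).1]
    rcases Nat.eq_or_lt_of_le ht with rfl | ht1
    · simp [(h2 j 0).2]
    have := h5 i j s t hij hs0 hs1 ht0 ht1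
    simp only [G] at this
    simp [this.1, this.2]
  have := noTheta (P 0 0) (P 0 (l 0))
  simp only [List.all_eq_true] at this
  have h6 := this _ (hm 0) _ (hm 1)
  rw [hk 0 1 (by decide)] at h6
  simp only [Bool.not_true, Bool.false_or, List.all_eq_true] at h6
  have h7 := h6 _ (hm 2)
  rw [hk 0 2 (by decide), hk 1 2 (by decide)] at h7
  exact absurd h7 (by decide)

theorem prism_free : ¬ ∃ (P : Fin 3 → ℕ → V) (l : Fin 3 → ℕ),
    (∀ i, 1 ≤ l i) ∧
    (∀ i j s t, s ≤ l i → t ≤ l j → P i s = P j t → (i = j ∧ s = t)) ∧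
    (∀ i j s t, s ≤ l i → t ≤ l j →
      (G.Adj (P i s) (P j t) ↔
        ((i = j ∧ (s + 1 = t ∨ t + 1 = s)) ∨
         (i ≠ j ∧ ((s = 0 ∧ t = 0) ∨ (s = l i ∧ t = l j)))))) := by
  rintro ⟨P, l, h1, h2, h3⟩
  have hm : ∀ i, pl (P i) (l i) ∈ longP (P i 0) := by
    intro i
    have := pl_mem_paths (P i) (l i) (fun s t hs ht h => (h2 i i s t hs ht h).2)
      (fun s t hs ht => by simpa using h3 i i s t hs ht)
    refine List.mem_filter.mpr ⟨this, ?_⟩
    have := h1 i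
    simp only [pl_len, decide_eq_true_eq]
    omega
  have ha : ∀ i j, i ≠ j → adj (P i 0) (P j 0) = true := fun i j hij =>
    (h3 i j 0 0 (Nat.zero_le _) (Nat.zero_le _)).mpr (Or.inr ⟨hij, Or.inl ⟨rfl, rfl⟩⟩)
  have hk : ∀ i j, i ≠ j → okP (P i 0) (P j 0) (pl (P i) (l i)) (pl (P j) (l j)) = true := by
    intro i j hij
    simp only [okP, List.all_eq_true, pl_head]
    intro u hu v hv
    obtain ⟨s, hs, rfl⟩ := (mem_pl _ _ _).mp hu
    obtain ⟨t, ht, rfl⟩ := (mem_pl _ _ _).mp hv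
    have e : ∀ k a b, a ≤ l k → b ≤ l k → (P k a = P k b ↔ a = b) := fun k a b ha hb =>
      ⟨fun h => (h2 k k a b ha hb h).2, fun h => by rw [h]⟩
    have h4 := h3 i j s t hs ht
    simp only [G, hij, false_and, false_or, ne_eq, not_false_eq_true, true_and] at h4
    simp only [Bool.and_eq_true, bne_iff_ne, beq_iff_eq]
    refine ⟨fun h => hij (h2 i j s t hs ht h).1, ?_⟩
    rw [Bool.eq_iff_iff, h4]
    simp [e i s 0 hs (Nat.zero_le _), e j t 0 ht (Nat.zero_le _), e i s _ hs le_rfl,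
      e j t _ ht le_rfl]
  have := noPrism (P 0 0) (P 1 0) (P 2 0) (ha 0 1 (by decide)) (ha 0 2 (by decide))
    (ha 1 2 (by decide))
  simp only [List.all_eq_true] at this
  have h6 := this _ (hm 0) _ (hm 1)
  rw [hk 0 1 (by decide)] at h6
  simp only [Bool.not_true, Bool.false_or, List.all_eq_true] at h6
  have h7 := h6 _ (hm 2)
  rw [hk 0 2 (by decide), hk 1 2 (by decide)] at h7
  exact absurd h7 (by decide)

/-- A hole gives an induced path and a closing vertex. -/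
lemma hole_data (k : ℕ) (f : Fin (k + 4) → V) (h1 : Function.Injective f)
    (h2 : ∀ i j : Fin (k + 4), G.Adj (f i) (f j) ↔
      (((i : ℕ) + 1) % (k + 4) = (j : ℕ) ∨ ((j : ℕ) + 1) % (k + 4) = (i : ℕ))) :
    ∃ (a z : V) (p : List V), p ∈ paths a ∧ p.length = k + 3 ∧ okH a z p = true ∧
      ∀ v, v ∈ z :: p ↔ ∃ i, f i = v := by
  let P : ℕ → V := fun s => f (Fin.ofNat (k + 4) s)
  have hv : ∀ s, s < k + 4 → ((Fin.ofNat (k + 4) s : Fin (k + 4)) : ℕ) = s := fun s hs =>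
    Nat.mod_eq_of_lt hs
  have e : ∀ s t, s < k + 4 → t < k + 4 → (P s = P t ↔ s = t) := fun s t hs ht =>
    ⟨fun h => by rw [← hv s hs, ← hv t ht, h1 h], fun h => by rw [h]⟩
  refine ⟨P 0, P (k + 3), pl P (k + 2), pl_mem_paths P (k + 2)
    (fun s t hs ht => (e s t (by omega) (by omega)).mp) (fun s t hs ht => ?_), pl_len _ _, ?_, ?_⟩
  · rw [h2, hv s (by omega), hv t (by omega), Nat.mod_eq_of_lt (by omega),
      Nat.mod_eq_of_lt (by omega)]
  · simp only [okH, List.all_eq_true, pl_head]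
    intro u hu
    obtain ⟨s, hs, rfl⟩ := (mem_pl _ _ _).mp hu
    have h4 := h2 (Fin.ofNat (k + 4) (k + 3)) (Fin.ofNat (k + 4) s)
    rw [hv s (by omega), hv (k + 3) (by omega), Nat.mod_self, Nat.mod_eq_of_lt (by omega)] at h4
    simp only [Bool.and_eq_true, bne_iff_ne, beq_iff_eq]
    refine ⟨fun h => by have := (e _ _ (by omega) (by omega)).mp h; omega, ?_⟩
    rw [Bool.eq_iff_iff]
    refine h4.trans ?_
    simp only [Bool.or_eq_true, beq_iff_eq, e s 0 (by omega) (by omega),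
      e s (k + 2) (by omega) (by omega)]
    omega
  · intro v
    change v ∈ pl P (k + 3) ↔ _
    rw [mem_pl]
    constructor
    · rintro ⟨s, -, rfl⟩
      exact ⟨_, rfl⟩
    · rintro ⟨i, rfl⟩
      refine ⟨i, by omega, ?_⟩
      simp only [P]
      congr 1
      exact Fin.ext (hv i i.2)

theorem wheel_free : ¬ ∃ (m : ℕ) (f : Fin m → V) (c : V),
    4 ≤ m ∧ Function.Injective f ∧
    (∀ i j : Fin m, G.Adj (f i) (f j) ↔
      (((i : ℕ) + 1) % m = (j : ℕ) ∨ ((j : ℕ) + 1) % m = (i : ℕ))) ∧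
    (∀ i, f i ≠ c) ∧
    3 ≤ Nat.card {i : Fin m // G.Adj c (f i)} ∧
    Even (Nat.card {i : Fin m // G.Adj c (f i)}) := by
  rintro ⟨m, f, c, hm, h1, h2, h3, h4, h5⟩
  obtain ⟨k, rfl⟩ : ∃ k, m = k + 4 := ⟨m - 4, by omega⟩
  obtain ⟨a, z, p, hp, hl, hk, hv⟩ := hole_data k f h1 h2
  have h6 : Nat.card {i : Fin (k + 4) // G.Adj c (f i)} =
      (Finset.univ.filter fun v : V => v ∈ z :: p ∧ adj c v = true).card := by
    rw [Nat.card_eq_fintype_card, Fintype.card_subtype,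
      ← Finset.card_image_of_injective _ h1]
    congr 1
    ext v
    simp only [Finset.mem_image, Finset.mem_filter, Finset.mem_univ, true_and, hv]
    constructor
    · rintro ⟨i, hi, rfl⟩
      exact ⟨⟨i, rfl⟩, hi⟩
    · rintro ⟨⟨i, rfl⟩, hi⟩
      exact ⟨i, hi, rfl⟩
  have h7 := List.all_eq_true.mp (noWheel a z) p hp
  rw [hk, hl, decide_eq_true (by omega : 3 ≤ k + 3)] at h7
  simp only [Bool.and_self, Bool.not_true, Bool.false_or, List.all_eq_true] at h7
  have h8 := h7 c (List.mem_finRange c)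
  have h9 : (z :: p).contains c = false := by
    rw [Bool.eq_false_iff]
    intro h
    obtain ⟨i, hi⟩ := (hv c).mp (List.contains_iff_mem.mp h)
    exact h3 i hi
  rw [h9, Bool.false_or, decide_eq_true_eq, ← h6] at h8
  rw [Nat.even_iff] at h5
  omega

/-- The graph has no even hole. -/
theorem even_hole_free (m : ℕ) (f : Fin m → V) (hm : 4 ≤ m) (h1 : Function.Injective f)
    (h2 : ∀ i j : Fin m, G.Adj (f i) (f j) ↔
      (((i : ℕ) + 1) % m = (j : ℕ) ∨ ((j : ℕ) + 1) % m = (i : ℕ))) : Odd m := by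
  obtain ⟨k, rfl⟩ : ∃ k, m = k + 4 := ⟨m - 4, by omega⟩
  obtain ⟨a, z, p, hp, hl, hk, -⟩ := hole_data k f h1 h2
  have h7 := List.all_eq_true.mp (noEvenHole a z) p hp
  rw [hk, hl, decide_eq_true (by omega : 3 ≤ k + 3)] at h7
  simp only [Bool.and_self, Bool.not_true, Bool.false_or, decide_eq_true_eq] at h7
  rw [Nat.odd_iff]
  omega

def part (v : V) : Fin 3 ⊕ Fin 3 :=
  if v.val < 2 then .inl 0 else if v.val < 4 then .inl 1 else if v.val < 6 then .inl 2
  else if v.val < 9 then .inr 0 else if v.val < 11 then .inr 1 else .inr 2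

def centre : Fin 3 ⊕ Fin 3 → V
  | .inl i => ![0, 2, 4] i
  | .inr i => ![7, 9, 11] i

theorem minor : ∃ B : Fin 3 ⊕ Fin 3 → Set V,
    (∀ x, (G.induce (B x)).Connected) ∧
    (∀ x y, x ≠ y → Disjoint (B x) (B y)) ∧
    (∀ x y, x ≠ y →
      ((∃ u ∈ B x, ∃ v ∈ B y, G.Adj u v) ↔
        (completeBipartiteGraph (Fin 3) (Fin 3)).Adj x y)) := by
  refine ⟨fun x => {v | part v = x}, fun x => ?_, fun x y hxy => ?_, ?_⟩
  · have h1 : ∀ x, part (centre x) = x := by decide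
    have h2 : ∀ v, v = centre (part v) ∨ G.Adj (centre (part v)) v := by decide
    rw [SimpleGraph.connected_iff_exists_forall_reachable]
    refine ⟨⟨centre x, h1 x⟩, ?_⟩
    rintro ⟨v, rfl⟩
    rcases h2 v with h | h
    · exact (Subtype.ext h : (⟨v, rfl⟩ : {w | part w = part v}) = ⟨centre (part v), h1 _⟩) ▸
        SimpleGraph.Reachable.refl _
    · exact SimpleGraph.Adj.reachable h
  · exact Set.disjoint_left.mpr fun v h1 h2 => hxy (h1.symm.trans h2)
  · simp only [Set.mem_ofPred_eq, completeBipartiteGraph_adj]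
    decide

end Pool.Agent.H598Z.K33
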