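import Mathlib

set_option autoImplicit false

namespace Pool.Agent.H598Z.Six

abbrev V := Fin 13

/-- `K_6` on `0,…,5` with all edges subdivided once except the eight edges from `0, 1` to
`2, 3, 4, 5`. -/
def edges : List (ℕ × ℕ) :=
  [(0,2),(0,3),(0,4),(0,5),(1,2),(1,3),(1,4),(1,5),(6,0),(6,1),(7,2),(7,3),(8,2),(8,4),(9,2),(9,5),
    (10,3),(10,4),(11,3),(11,5),(12,4),(12,5)]

def adj (u v : V) : Bool :=
  edges.any fun e => (e.1 == u.val && e.2 == v.val) || (e.1 == v.val && e.2 == u.val)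

def G : SimpleGraph V where
  Adj u v := adj u v = true
  symm := ⟨by decide⟩
  loopless := ⟨by decide⟩

instance : DecidableRel G.Adj := fun u v => inferInstanceAs (Decidable (adj u v = true))

def part (v : V) : Fin 6 := ![0, 1, 2, 3, 4, 5, 0, 2, 2, 2, 3, 3, 4] v

theorem minor : ∃ B : Fin 6 → Set V,
    (∀ i, (G.induce (B i)).Connected) ∧
    (∀ i j, i ≠ j → Disjoint (B i) (B j)) ∧
    (∀ i j, i ≠ j → ∃ u ∈ B i, ∃ v ∈ B j, G.Adj u v) := by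
  refine ⟨fun x => {v | part v = x}, fun x => ?_, fun x y hxy => ?_, ?_⟩
  · have h1 : ∀ x : Fin 6, part (x.castLE (by norm_num)) = x := by decide
    have h2 : ∀ v, v = (part v).castLE (by norm_num) ∨ G.Adj ((part v).castLE (by norm_num)) v := by
      decide
    rw [SimpleGraph.connected_iff_exists_forall_reachable]
    refine ⟨⟨x.castLE (by norm_num), h1 x⟩, ?_⟩
    rintro ⟨v, rfl⟩
    rcases h2 v with h | h
    · exact (Subtype.ext h : (⟨v, rfl⟩ : {w | part w = part v}) = ⟨_, h1 _⟩) ▸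
        SimpleGraph.Reachable.refl _
    · exact SimpleGraph.Adj.reachable h
  · exact Set.disjoint_left.mpr fun v h1 h2 => hxy (h1.symm.trans h2)
  · simp only [Set.mem_ofPred_eq]
    decide

theorem no_triangle : ¬ ∃ a b c : V, G.Adj a b ∧ G.Adj b c ∧ G.Adj a c := by decide +kernel

lemma small_indep : ∀ u v : V, 6 ≤ u.val → 6 ≤ v.val → ¬ G.Adj u v := by decide

lemma small_deg : ∀ s : V, 6 ≤ s.val → ∀ a b c : V, G.Adj s a → G.Adj s b → G.Adj s c →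
    a = b ∨ a = c ∨ b = c := by decide +kernel

lemma big_nbr : ∀ a b : V, a.val < 6 → b.val < 6 → a ≠ 0 → b ≠ 0 → ¬ G.Adj 0 a → ¬ G.Adj 0 b →
    a = b := by decide +kernel

theorem no_induced : ¬ ∃ B : Fin 6 → Set V,
    (∀ i, (G.induce (B i)).Connected) ∧
    (∀ i j, i ≠ j → Disjoint (B i) (B j)) ∧
    (∀ i j, i ≠ j →
      ((∃ u ∈ B i, ∃ v ∈ B j, G.Adj u v) ↔ ¬ (i.val < 3 ↔ j.val < 3))) := by
  rintro ⟨B, h1, h2, h3⟩
  have hne : ∀ {i j : Fin 6} {u v : V}, i ≠ j → u ∈ B i → v ∈ B j → u ≠ v :=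
    fun hij hu hv h => Set.disjoint_left.mp (h2 _ _ hij) hu (h ▸ hv)
  have hbig : ∀ i, ∃ v ∈ B i, v.val < 6 := by
    intro i
    by_contra hc
    push Not at hc
    have hs : ∀ u ∈ B i, ∀ v ∈ B i, u = v := by
      intro u hu v hv
      obtain ⟨w⟩ := (h1 i).preconnected ⟨u, hu⟩ ⟨v, hv⟩
      cases w with
      | nil => rfl
      | cons h _ => exact absurd h (small_indep _ _ (hc _ hu) (hc _ (Subtype.prop _)))
    have hex : ∀ i : Fin 6, ∃ j k l : Fin 6, j ≠ k ∧ j ≠ l ∧ k ≠ l ∧ (i ≠ j ∧ ¬ (i.val < 3 ↔ j.val < 3)) ∧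
        (i ≠ k ∧ ¬ (i.val < 3 ↔ k.val < 3)) ∧ (i ≠ l ∧ ¬ (i.val < 3 ↔ l.val < 3)) := by decide
    obtain ⟨j, k, l, hjk, hjl, hkl, hj, hk, hl⟩ := hex i
    obtain ⟨s, hs1, a, ha, hsa⟩ := (h3 i j hj.1).mpr hj.2
    obtain ⟨s', hs2, b, hb, hsb⟩ := (h3 i k hk.1).mpr hk.2
    obtain ⟨s'', hs3, c, hc', hsc⟩ := (h3 i l hl.1).mpr hl.2
    rw [hs _ hs2 _ hs1] at hsb
    rw [hs _ hs3 _ hs1] at hsc
    rcases small_deg s (hc _ hs1) a b c hsa hsb hsc with h | h | h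
    · exact hne hjk ha hb h
    · exact hne hjl ha hc' h
    · exact hne hkl hb hc' h
  choose f hf1 hf2 using hbig
  have hinj : Function.Injective fun i => (⟨(f i).val, hf2 i⟩ : Fin 6) := by
    intro i j h
    by_contra hij
    exact hne hij (hf1 i) (hf1 j) (Fin.ext (congrArg (Fin.val (n := 6)) h))
  obtain ⟨i, hi⟩ := Finite.injective_iff_surjective.mp hinj 0
  have hi0 : f i = 0 := Fin.ext (congrArg (Fin.val (n := 6)) hi)
  have hex : ∀ i : Fin 6, ∃ j k : Fin 6, j ≠ k ∧ (i ≠ j ∧ (i.val < 3 ↔ j.val < 3)) ∧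
      (i ≠ k ∧ (i.val < 3 ↔ k.val < 3)) := by decide
  obtain ⟨j, k, hjk, hj, hk⟩ := hex i
  have hn : ∀ j, i ≠ j ∧ (i.val < 3 ↔ j.val < 3) → f j ≠ 0 ∧ ¬ G.Adj 0 (f j) := fun j hj =>
    ⟨hi0 ▸ (hne hj.1 (hf1 i) (hf1 j)).symm,
      fun h => (h3 i j hj.1).mp ⟨f i, hf1 i, f j, hf1 j, hi0 ▸ h⟩ hj.2⟩
  exact hne hjk (hf1 j) (hf1 k)
    (big_nbr _ _ (hf2 j) (hf2 k) (hn j hj).1 (hn k hk).1 (hn j hj).2 (hn k hk).2)

end Pool.Agent.H598Z.Six
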